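import Pool.Agent.KS6_10.MVMain

open MeasureTheory Metric Set Filter Topology
open scoped ENNReal NNReal

set_option autoImplicit false

namespace Pool.Agent.Results.MP_88aa81_an.Classification

open Pool.Agent.Y767.PB Pool.Agent.KS6_10.MV

/-- `M(x)`: the mean of `y ↦ ‖x - y‖ ^ (2 - n)` over the unit sphere of `ℝⁿ` with respect to
surface measure (normalised: this is an average). -/
noncomputable def sphMean (n : ℕ) (x : EuclideanSpace ℝ (Fin n)) : ℝ :=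
  ⨍ y : Metric.sphere (0 : EuclideanSpace ℝ (Fin n)) 1,
    ‖x - (y : EuclideanSpace ℝ (Fin n))‖ ^ (2 - (n:ℝ))
    ∂((volume : Measure (EuclideanSpace ℝ (Fin n))).toSphere)

/-- the identity of the mean-value property at the point `x` -/
def IdAt (n : ℕ) (A : Set (EuclideanSpace ℝ (Fin n))) (x : EuclideanSpace ℝ (Fin n)) : Prop :=
  (volume.real A)⁻¹ * (∫ y in A, ‖x - y‖ ^ (2 - (n:ℝ))) = sphMean n x

/-- the mean-value property: the identity holds at every point outside `A` -/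
def HasMVP (n : ℕ) (A : Set (EuclideanSpace ℝ (Fin n))) : Prop := ∀ x, x ∉ A → IdAt n A x

/-- the annulus with radii `r₁`, `r₂` -/
def annulus (n : ℕ) (r₁ r₂ : ℝ) : Set (EuclideanSpace ℝ (Fin n)) := {x | r₁ < ‖x‖ ∧ ‖x‖ < r₂}

/-- the condition on the radii of an annulus with a hole -/
def Radii (n : ℕ) (r₁ r₂ : ℝ) : Prop :=
  0 < r₁ ∧ r₁ < 1 ∧ 1 < r₂ ∧ (n:ℝ) * (r₂ ^ 2 - r₁ ^ 2) = 2 * (r₂ ^ n - r₁ ^ n)

/-- a measurable set of positive finite measure -/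
def Adm (n : ℕ) (A : Set (EuclideanSpace ℝ (Fin n))) : Prop :=
  MeasurableSet A ∧ 0 < volume A ∧ volume A < ⊤

/-- a non-empty open set of finite measure -/
def OpenAdm (n : ℕ) (U : Set (EuclideanSpace ℝ (Fin n))) : Prop :=
  IsOpen U ∧ U.Nonempty ∧ volume U < ⊤

/-- the sphere `(n - 2) ‖x‖² = n R² - 2 Rⁿ` (it may be empty or a point) -/
def crit (n : ℕ) (R : ℝ) : Set (EuclideanSpace ℝ (Fin n)) :=
  {x | ((n:ℝ) - 2) * ‖x‖ ^ 2 = (n:ℝ) * R ^ 2 - 2 * R ^ n}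

/-- almost everywhere equal to a ball of radius `R ≥ 1` or to an annulus as in `Radii` -/
def ClassAE (n : ℕ) (A : Set (EuclideanSpace ℝ (Fin n))) : Prop :=
  (∃ R : ℝ, 1 ≤ R ∧ A =ᵐ[volume] ball (0 : EuclideanSpace ℝ (Fin n)) R) ∨
  (∃ r₁ r₂ : ℝ, Radii n r₁ r₂ ∧ A =ᵐ[volume] annulus n r₁ r₂)

/-- the same, with the condition on the points of the ball or annulus outside the set -/
def ClassMeas (n : ℕ) (A : Set (EuclideanSpace ℝ (Fin n))) : Prop :=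
  (∃ R : ℝ, 1 ≤ R ∧ A =ᵐ[volume] ball (0 : EuclideanSpace ℝ (Fin n)) R ∧
    ball (0 : EuclideanSpace ℝ (Fin n)) R \ A ⊆ crit n R) ∨
  (∃ r₁ r₂ : ℝ, Radii n r₁ r₂ ∧ A =ᵐ[volume] annulus n r₁ r₂ ∧ annulus n r₁ r₂ ⊆ A)

/-- a ball of radius `R ≥ 1` minus a closed part of the sphere `crit n R`, or an annulus as in
`Radii` -/
def ClassOpen (n : ℕ) (U : Set (EuclideanSpace ℝ (Fin n))) : Prop :=
  (∃ R : ℝ, 1 ≤ R ∧ ∃ F : Set (EuclideanSpace ℝ (Fin n)), IsClosed F ∧ F ⊆ crit n R ∧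
    U = ball (0 : EuclideanSpace ℝ (Fin n)) R \ F) ∨
  (∃ r₁ r₂ : ℝ, Radii n r₁ r₂ ∧ U = annulus n r₁ r₂)

lemma idAt_iff {k : ℕ} {A : Set (E (k + 3))} (h0 : 0 < volume A) (hA : volume A < ⊤)
    (x : E (k + 3)) : IdAt (k + 3) A x ↔ Q k 0 A x = (volume A).toReal * MM k x := by
  have hV : 0 < (volume A).toReal := ENNReal.toReal_pos h0.ne' hA.ne
  have h1 : sphMean (k + 3) x = MM k x := sph_mean_all k x
  have h2 : ∫ y in A, ‖x - y‖ ^ (2 - ((k + 3 : ℕ):ℝ)) = Q k 0 A x := by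
    unfold Q
    simp_rw [Kf_zero]
  unfold IdAt
  rw [h1, h2, measureReal_def, inv_mul_eq_iff_eq_mul₀ hV.ne']

lemma part1 {k : ℕ} {A : Set (E (k + 3))} (hAm : MeasurableSet A) (h0 : 0 < volume A)
    (hA : volume A < ⊤) : (∀ᵐ x : E (k + 3), x ∉ A → IdAt (k + 3) A x) ↔
      (∃ R : ℝ, 1 ≤ R ∧ A =ᵐ[volume] ball (0 : E (k + 3)) R) ∨
      (∃ r₁ r₂ : ℝ, Radii (k + 3) r₁ r₂ ∧ A =ᵐ[volume] annulus (k + 3) r₁ r₂) := by
  constructor
  · intro h
    have hK : volume (Aᶜ \ {x : E (k + 3) | x ∉ A ∧ IdAt (k + 3) A x}) = 0 := by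
      rw [ae_iff] at h
      refine measure_mono_null ?_ h
      rintro x ⟨hx1, hx2⟩
      simp only [mem_ofPred_eq, Classical.not_imp]
      exact ⟨hx1, fun hx3 => hx2 ⟨hx1, hx3⟩⟩
    rcases main_class hA.ne hAm h0.ne' hK (fun x hx => (idAt_iff h0 hA x).1 hx.2) with
      ⟨R, hR, hae, -⟩ | ⟨r₁, r₂, h1, h2, h3, h4, hae, -⟩
    · exact Or.inl ⟨R, hR, hae⟩
    · refine Or.inr ⟨r₁, r₂, ⟨h1, h2, h3, ?_⟩, hae⟩
      push_cast
      exact h4
  · rintro (⟨R, hR, hae⟩ | ⟨r₁, r₂, ⟨h1, h2, h3, h4⟩, hae⟩)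
    · filter_upwards [hae] with x hx hxA
      rw [idAt_iff h0 hA]
      apply id_ball hR hae
      intro hlt
      exact absurd ((iff_of_eq hx).2 (mem_ball_zero_iff.2 hlt)) hxA
    · push_cast at h4
      filter_upwards [hae] with x hx hxA
      rw [idAt_iff h0 hA]
      exact id_ann h1 h2 h3 h4 hae (fun h => hxA ((iff_of_eq hx).2 h))

lemma part2 {k : ℕ} {A : Set (E (k + 3))} (hAm : MeasurableSet A) (h0 : 0 < volume A)
    (hA : volume A < ⊤) : HasMVP (k + 3) A ↔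
      (∃ R : ℝ, 1 ≤ R ∧ A =ᵐ[volume] ball (0 : E (k + 3)) R ∧ ∀ x, x ∉ A → ‖x‖ < R →
        (((k + 3 : ℕ):ℝ) - 2) * ‖x‖ ^ 2 = ((k + 3 : ℕ):ℝ) * R ^ 2 - 2 * R ^ (k + 3)) ∨
      (∃ r₁ r₂ : ℝ, Radii (k + 3) r₁ r₂ ∧ A =ᵐ[volume] annulus (k + 3) r₁ r₂ ∧
        annulus (k + 3) r₁ r₂ ⊆ A) := by
  constructor
  · intro h
    have hK : volume (Aᶜ \ Aᶜ) = 0 := by rw [sdiff_self]; exact measure_empty
    rcases main_class hA.ne hAm h0.ne' hK (fun x hx => (idAt_iff h0 hA x).1 (h x hx)) with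
      ⟨R, hR, hae, hx⟩ | ⟨r₁, r₂, h1, h2, h3, h4, hae, hx⟩
    · refine Or.inl ⟨R, hR, hae, fun x hxA hxR => ?_⟩
      have := hx x hxA hxR
      push_cast
      linarith
    · refine Or.inr ⟨r₁, r₂, ⟨h1, h2, h3, ?_⟩, hae, ?_⟩
      · push_cast
        exact h4
      · intro x hxn
        by_contra hxA
        exact hx x hxA hxn
  · rintro (⟨R, hR, hae, hx⟩ | ⟨r₁, r₂, ⟨h1, h2, h3, h4⟩, hae, hsub⟩)
    · intro x hxA
      rw [idAt_iff h0 hA]
      apply id_ball hR hae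
      intro hlt
      have := hx x hxA hlt
      push_cast at this
      linarith
    · push_cast at h4
      intro x hxA
      rw [idAt_iff h0 hA]
      exact id_ann h1 h2 h3 h4 hae (fun h => hxA (hsub h))

/-- the sphere that may be removed is a null set, for every radius -/
lemma null_sph (k : ℕ) (R : ℝ) : volume {x : E (k + 3) |
    (((k + 3 : ℕ):ℝ) - 2) * ‖x‖ ^ 2 = ((k + 3 : ℕ):ℝ) * R ^ 2 - 2 * R ^ (k + 3)} = 0 := by
  refine measure_mono_null ?_ (Measure.addHaar_sphere (volume : Measure (E (k + 3))) 0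
    (Real.sqrt ((((k + 3 : ℕ) : ℝ) * R ^ 2 - 2 * R ^ (k + 3)) / (k + 1))))
  intro x hx
  rw [mem_sphere_zero_iff_norm, ← hx.out]
  push_cast
  rw [show ((k:ℝ) + 3 - 2) * ‖x‖ ^ 2 / (k + 1) = ‖x‖ ^ 2 by field_simp; ring,
    Real.sqrt_sq (norm_nonneg x)]

lemma open_sub {k : ℕ} {U B : Set (E (k + 3))} (hU : IsOpen U) (h : volume (U \ B) = 0) :
    U ⊆ closure B := by
  intro x hx
  by_contra hxB
  have h1 : IsOpen (U \ closure B) := hU.sdiff isClosed_closure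
  have h2 : volume (U \ closure B) = 0 :=
    measure_mono_null (sdiff_subset_sdiff_right subset_closure) h
  have h3 := h1.measure_eq_zero_iff volume |>.1 h2
  exact (h3 ▸ (⟨hx, hxB⟩ : x ∈ U \ closure B) : x ∈ (∅ : Set (E (k + 3))))

/-- points in the interior of a closed shell are in the open shell -/
lemma int_shell {n : ℕ} {r₁ r₂ : ℝ} (h0 : 0 < r₁) :
    interior {x : E n | r₁ ≤ ‖x‖ ∧ ‖x‖ ≤ r₂} ⊆ {x : E n | r₁ < ‖x‖ ∧ ‖x‖ < r₂} := by
  intro x hx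
  have hx0 : r₁ ≤ ‖x‖ := (interior_subset hx).1
  have hpos : 0 < ‖x‖ := h0.trans_le hx0
  have h1 : Tendsto (fun t : ℝ => t • x) (𝓝 1) (𝓝 x) := by
    have h2 : Continuous (fun t : ℝ => t • x) := by fun_prop
    have h3 := h2.tendsto 1
    rwa [one_smul] at h3
  have h2 : ∀ᶠ t : ℝ in 𝓝 1, t • x ∈ {x : E n | r₁ ≤ ‖x‖ ∧ ‖x‖ ≤ r₂} :=
    h1 (mem_interior_iff_mem_nhds.1 hx)
  obtain ⟨δ, hδ, hδ2⟩ := Metric.eventually_nhds_iff_ball.1 h2
  set e := min (δ / 2) (1 / 2) with he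
  have he0 : 0 < e := lt_min (by linarith) (by norm_num)
  have he1 : e ≤ δ / 2 := min_le_left _ _
  have he2 : e ≤ 1 / 2 := min_le_right _ _
  have h3 := hδ2 (1 + e) (by
    rw [mem_ball, Real.dist_eq, add_sub_cancel_left, abs_of_pos he0]; linarith)
  have h4 := hδ2 (1 - e) (by
    rw [mem_ball, Real.dist_eq, show 1 - e - 1 = -e by ring, abs_neg, abs_of_pos he0]; linarith)
  have h5 : ‖(1 + e) • x‖ ≤ r₂ := h3.2
  have h6 : r₁ ≤ ‖(1 - e) • x‖ := h4.1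
  rw [norm_smul, Real.norm_of_nonneg (by linarith)] at h5 h6
  have h7 : 0 < e * ‖x‖ := mul_pos he0 hpos
  constructor
  · nlinarith
  · nlinarith

lemma closure_ann {n : ℕ} (r₁ r₂ : ℝ) :
    closure (annulus n r₁ r₂) ⊆ {x : E n | r₁ ≤ ‖x‖ ∧ ‖x‖ ≤ r₂} := by
  apply closure_minimal
  · rintro x ⟨h1, h2⟩
    exact ⟨h1.le, h2.le⟩
  · exact (isClosed_le continuous_const continuous_norm).inter
      (isClosed_le continuous_norm continuous_const)

lemma open_ann {n : ℕ} {r₁ r₂ : ℝ} (h0 : 0 < r₁) {U : Set (E n)} (hU : IsOpen U)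
    (h : U ⊆ closure (annulus n r₁ r₂)) : U ⊆ annulus n r₁ r₂ := by
  have h1 : U ⊆ interior {x : E n | r₁ ≤ ‖x‖ ∧ ‖x‖ ≤ r₂} :=
    interior_maximal (h.trans (closure_ann r₁ r₂)) hU
  exact h1.trans (int_shell h0)

lemma open_ball' {n : ℕ} {R : ℝ} (hR : R ≠ 0) {U : Set (E n)} (hU : IsOpen U)
    (h : U ⊆ closure (ball (0 : E n) R)) : U ⊆ ball (0 : E n) R := by
  rw [closure_ball _ hR] at h
  have h1 := interior_maximal h hU
  rwa [interior_closedBall _ hR] at h1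

lemma part3 {k : ℕ} {Ω : Set (E (k + 3))} (hΩ : IsOpen Ω) (hne : Ω.Nonempty)
    (hfin : volume Ω < ⊤) : HasMVP (k + 3) Ω ↔
      (∃ R : ℝ, 1 ≤ R ∧ ∃ F : Set (E (k + 3)), IsClosed F ∧
        F ⊆ {x | (((k + 3 : ℕ):ℝ) - 2) * ‖x‖ ^ 2 = ((k + 3 : ℕ):ℝ) * R ^ 2 - 2 * R ^ (k + 3)} ∧
        Ω = ball (0 : E (k + 3)) R \ F) ∨
      (∃ r₁ r₂ : ℝ, Radii (k + 3) r₁ r₂ ∧ Ω = annulus (k + 3) r₁ r₂) := by
  have h0 : 0 < volume Ω := hΩ.measure_pos volume hne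
  rw [part2 hΩ.measurableSet h0 hfin]
  constructor
  · rintro (⟨R, hR, hae, hx⟩ | ⟨r₁, r₂, hr, hae, hsub⟩)
    · left
      refine ⟨R, hR, Ωᶜ ∩ {x | (((k + 3 : ℕ):ℝ) - 2) * ‖x‖ ^ 2 =
        ((k + 3 : ℕ):ℝ) * R ^ 2 - 2 * R ^ (k + 3)}, ?_, inter_subset_right, ?_⟩
      · exact hΩ.isClosed_compl.inter (isClosed_eq (by fun_prop) (by fun_prop))
      · have hsub : Ω ⊆ ball (0 : E (k + 3)) R :=
          open_ball' (by linarith) hΩ (open_sub hΩ (ae_le_set.1 hae.le))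
        ext x
        constructor
        · intro hxΩ
          exact ⟨hsub hxΩ, fun h => h.1 hxΩ⟩
        · rintro ⟨hx1, hx2⟩
          by_contra hxΩ
          exact hx2 ⟨hxΩ, hx x hxΩ (mem_ball_zero_iff.1 hx1)⟩
    · right
      refine ⟨r₁, r₂, hr, Subset.antisymm ?_ hsub⟩
      exact open_ann hr.1 hΩ (open_sub hΩ (ae_le_set.1 hae.le))
  · rintro (⟨R, hR, F, hF, hFs, rfl⟩ | ⟨r₁, r₂, hr, rfl⟩)
    · left
      refine ⟨R, hR, ?_, ?_⟩
      · exact sdiff_null_ae_eq_self (measure_mono_null hFs (null_sph k R))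
      · intro x hx hxR
        have hxF : x ∈ F := by
          by_contra hxF
          exact hx ⟨mem_ball_zero_iff.2 hxR, hxF⟩
        exact hFs hxF
    · right
      exact ⟨r₁, r₂, hr, ae_eq_refl _, Subset.rfl⟩

lemma ball_eq_annulus {n : ℕ} (R : ℝ) : ball (0 : E n) R = annulus n (-1) R := by
  ext x
  simp only [annulus, mem_ofPred_eq]
  rw [mem_ball_zero_iff]
  constructor
  · intro h
    exact ⟨by linarith [norm_nonneg x], h⟩
  · exact fun h => h.2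

lemma part4 {k : ℕ} {Ω : Set (E (k + 3))} (hΩ : IsOpen Ω) (hne : Ω.Nonempty)
    (hfin : volume Ω < ⊤) (h : HasMVP (k + 3) Ω) :
    ∃ r₁ r₂ : ℝ, r₁ < r₂ ∧ interior (closure Ω) = annulus (k + 3) r₁ r₂ ∧
      volume (annulus (k + 3) r₁ r₂ \ Ω) = 0 := by
  rcases (part3 hΩ hne hfin).1 h with ⟨R, hR, F, hF, hFs, rfl⟩ | ⟨r₁, r₂, hr, rfl⟩
  · refine ⟨-1, R, by linarith, ?_, ?_⟩
    · rw [← ball_eq_annulus]
      apply Subset.antisymm
      · exact open_ball' (by linarith) isOpen_interior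
          (interior_subset.trans (closure_mono sdiff_subset))
      · apply interior_maximal _ isOpen_ball
        apply open_sub isOpen_ball
        refine measure_mono_null ?_ (null_sph k R)
        rintro x ⟨hx1, hx2⟩
        have hxF : x ∈ F := by
          by_contra hxF
          exact hx2 ⟨hx1, hxF⟩
        exact hFs hxF
    · rw [← ball_eq_annulus]
      refine measure_mono_null ?_ (null_sph k R)
      rintro x ⟨hx1, hx2⟩
      have hxF : x ∈ F := by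
        by_contra hxF
        exact hx2 ⟨hx1, hxF⟩
      exact hFs hxF
  · refine ⟨r₁, r₂, by linarith [hr.2.1, hr.2.2.1], ?_, ?_⟩
    · apply Subset.antisymm
      · exact open_ann hr.1 isOpen_interior interior_subset
      · exact interior_maximal subset_closure hΩ
    · rw [sdiff_self]; exact measure_empty

lemma part5 (k : ℕ) : ∃ Ω : Set (E (k + 3)), IsOpen Ω ∧ Ω.Nonempty ∧ volume Ω < ⊤ ∧
    HasMVP (k + 3) Ω ∧ ¬ ∃ r₁ r₂ : ℝ, Ω = annulus (k + 3) r₁ r₂ := by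
  -- a radius
  obtain ⟨R, hR1, hR2⟩ : ∃ R : ℝ, 1 < R ∧ 2 * R ^ (k + 3) < ((k + 3 : ℕ):ℝ) * R ^ 2 := by
    have hc : Continuous (fun R : ℝ => ((k + 3 : ℕ):ℝ) * R ^ 2 - 2 * R ^ (k + 3)) := by fun_prop
    have h1 : ∀ᶠ R : ℝ in 𝓝 1, 0 < ((k + 3 : ℕ):ℝ) * R ^ 2 - 2 * R ^ (k + 3) := by
      apply hc.continuousAt.eventually (lt_mem_nhds _)
      show 0 < ((k + 3 : ℕ):ℝ) * 1 ^ 2 - 2 * 1 ^ (k + 3)
      rw [one_pow, one_pow]
      push_cast
      have : (0:ℝ) ≤ k := by positivity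
      linarith
    obtain ⟨R, hR, hR1⟩ := ((h1.filter_mono nhdsWithin_le_nhds).and
      (self_mem_nhdsWithin : Ioi (1:ℝ) ∈ 𝓝[>] (1:ℝ))).exists
    exact ⟨R, hR1, by linarith⟩
  set s : ℝ := (((k + 3 : ℕ):ℝ) * R ^ 2 - 2 * R ^ (k + 3)) / (k + 1) with hs
  have hs0 : 0 < s := div_pos (by linarith) (by positivity)
  set p : E (k + 3) := EuclideanSpace.single (0 : Fin (k + 3)) (Real.sqrt s) with hp
  have hpn : ‖p‖ = Real.sqrt s := by
    rw [hp, PiLp.norm_single, Real.norm_of_nonneg (Real.sqrt_nonneg _)]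
  have hps : (((k + 3 : ℕ):ℝ) - 2) * ‖p‖ ^ 2 = ((k + 3 : ℕ):ℝ) * R ^ 2 - 2 * R ^ (k + 3) := by
    rw [hpn, Real.sq_sqrt hs0.le, hs]
    push_cast
    field_simp
    ring
  have hp0 : 0 < ‖p‖ := by rw [hpn]; exact Real.sqrt_pos.2 hs0
  have hpR : ‖p‖ < R := by
    have h1 := bern (k := k) (by linarith : 0 ≤ R) hR1.ne'
    push_cast at hps
    have h2 : ‖p‖ ^ 2 < 1 := by
      have h3 : ((k:ℝ) + 1) * ‖p‖ ^ 2 < ((k:ℝ) + 1) * 1 := by linarith
      exact lt_of_mul_lt_mul_left h3 (by positivity)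
    nlinarith
  have hop : IsOpen (ball (0 : E (k + 3)) R \ {p}) := isOpen_ball.sdiff isClosed_singleton
  have hnp : -p ∈ ball (0 : E (k + 3)) R \ {p} := by
    refine ⟨by rw [mem_ball_zero_iff, norm_neg]; exact hpR, fun h => ?_⟩
    rw [mem_singleton_iff] at h
    have h2 : p = 0 := by
      have h3 : (2:ℝ) • p = 0 := by
        rw [two_smul]
        nth_rewrite 1 [← h]
        exact neg_add_cancel p
      rcases smul_eq_zero.1 h3 with h4 | h4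
      · norm_num at h4
      · exact h4
    rw [h2, norm_zero] at hp0
    exact lt_irrefl _ hp0
  have hfin : volume (ball (0 : E (k + 3)) R \ {p}) < ⊤ :=
    (measure_mono sdiff_subset).trans_lt measure_ball_lt_top
  refine ⟨ball (0 : E (k + 3)) R \ {p}, hop, ⟨-p, hnp⟩, hfin, ?_, ?_⟩
  · rw [part3 hop ⟨-p, hnp⟩ hfin]
    left
    refine ⟨R, hR1.le, {p}, isClosed_singleton, ?_, rfl⟩
    rw [singleton_subset_iff]
    exact hps
  · rintro ⟨r₁, r₂, h⟩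
    rw [h] at hnp
    have h1 : r₁ < ‖-p‖ ∧ ‖-p‖ < r₂ := hnp
    rw [norm_neg] at h1
    have h2 : p ∈ annulus (k + 3) r₁ r₂ := h1
    rw [← h] at h2
    exact h2.2 rfl

/-- **Classification of the sets with the mean-value property**, `n ≥ 3`.

1. A measurable set `A` with `0 < λ(A) < ∞` satisfies the identity at almost every point outside
   `A` iff, up to a null set, it is a ball `‖x‖ < R` with `R ≥ 1` or an annulus `r₁ < ‖x‖ < r₂`
   with `0 < r₁ < 1 < r₂` and `n (r₂² - r₁²) = 2 (r₂ⁿ - r₁ⁿ)`.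
2. It has the mean-value property (the identity at every point outside `A`) iff it is a.e. equal to
   such a ball and the points of the ball outside `A` satisfy `(n - 2) ‖x‖² = n R² - 2 Rⁿ`, or it
   is a.e. equal to such an annulus, which it contains.
3. A non-empty open set of finite measure has the mean-value property iff it is such an annulus
   or a ball of radius `R ≥ 1` minus a closed subset of the sphere
   `(n - 2) ‖x‖² = n R² - 2 Rⁿ`.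
4. The interior of the closure of such an open set is an annulus, which differs from it by a
   null set.
5. There are such open sets which are not annuli.
6. For every `0 < r₁ < 1` there is exactly one `r₂` as in 1. -/
theorem result (n : ℕ) (hn : 3 ≤ n) :
    (∀ A, Adm n A → ((∀ᵐ x, x ∉ A → IdAt n A x) ↔ ClassAE n A)) ∧
    (∀ A, Adm n A → (HasMVP n A ↔ ClassMeas n A)) ∧
    (∀ U, OpenAdm n U → (HasMVP n U ↔ ClassOpen n U)) ∧
    (∀ U, OpenAdm n U → HasMVP n U → ∃ r₁ r₂ : ℝ, r₁ < r₂ ∧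
      interior (closure U) = annulus n r₁ r₂ ∧ volume (annulus n r₁ r₂ \ U) = 0) ∧
    (∃ U, OpenAdm n U ∧ HasMVP n U ∧ ¬ ∃ r₁ r₂ : ℝ, U = annulus n r₁ r₂) ∧
    (∀ r₁ : ℝ, 0 < r₁ → r₁ < 1 → ∃! r₂ : ℝ, Radii n r₁ r₂) := by
  obtain ⟨k, rfl⟩ : ∃ k, n = k + 3 := ⟨n - 3, by omega⟩
  refine ⟨fun A hA => part1 hA.1 hA.2.1 hA.2.2, fun A hA => ?_,
    fun U hU => part3 hU.1 hU.2.1 hU.2.2, fun U hU h => part4 hU.1 hU.2.1 hU.2.2 h, ?_, ?_⟩
  · rw [part2 hA.1 hA.2.1 hA.2.2]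
    unfold ClassMeas
    have h1 : ∀ R : ℝ, (∀ x, x ∉ A → ‖x‖ < R →
        (((k + 3 : ℕ):ℝ) - 2) * ‖x‖ ^ 2 = ((k + 3 : ℕ):ℝ) * R ^ 2 - 2 * R ^ (k + 3)) ↔
        ball (0 : EuclideanSpace ℝ (Fin (k + 3))) R \ A ⊆ crit (k + 3) R := by
      intro R
      constructor
      · rintro h x ⟨hx1, hx2⟩
        exact h x hx2 (mem_ball_zero_iff.1 hx1)
      · intro h x hx1 hx2
        exact h ⟨mem_ball_zero_iff.2 hx2, hx1⟩
    simp_rw [h1]
  · obtain ⟨U, h1, h2, h3, h4, h5⟩ := part5 k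
    exact ⟨U, ⟨h1, h2, h3⟩, h4, h5⟩
  intro r₁ h0 h1
  obtain ⟨r₂, ⟨h2, h3⟩, huniq⟩ := outer k h0 h1
  refine ⟨r₂, ⟨h0, h1, h2, ?_⟩, ?_⟩
  · push_cast
    exact h3
  · rintro s ⟨-, -, hs1, hs2⟩
    push_cast at hs2
    exact huniq s ⟨hs1, hs2⟩

end Pool.Agent.Results.MP_88aa81_an.Classification
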